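import Pool.Agent.Q83.NT.ThrBox

/-!
# Box averages at randomly displaced times, commuting maps and linear forms

`θ_i(t)`, `i < m`, `t ∈ ℕ^k`, are independent random integers, `θ_i(t)` uniform on
`{0, ..., L_i(t) - 1}`; every amplitude `L_i` either tends to infinity as `min t_r → ∞` (`i ∈ J`) with
`L_i(t) = (t_1 ⋯ t_k)^{o(1)}` or is a constant `l_i`. Let `λ_i(t) = ∑_r c_{i,r} t_r`. For almost every
choice of the displacements, for all commuting invertible measure preserving maps `T_i` and all
`f_i ∈ L^∞` at once, the averages over the boxes `[1, M_1] × ... × [1, M_k]` of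
`∏ f_i(T_i^{λ_i(t) + θ_i(t)} x)` are, as `min M_r → ∞`, asymptotic to `∏_{i ∈ J} E(f_i | I(T_i))(x)`
times the averages of the product over `i ∉ J` of the means of `f_i` over `l_i` consecutive points of
the orbit of `T_i`, at the times `λ_i(t)`. If the forms `λ_i`, `i ∉ J`, satisfy a linear relation with
all coefficients nonzero, the displaced question is equivalent to the undisplaced question for the
factors `i ∉ J`.

Proof: for one weight `w`, the mean square of `∑ w(t) ∏ f_i(T_i^{λ_i(t)} x)` is bounded, by van der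
Corput's method without averaging over the shifts, by a quantity which depends on `w` only; for
centred independent weights on a box `B` its expectation is `O(|B|^{2 - 2^{-m}})` (induction along the
lexicographic order of the times). The labels (values of the displacements) are `|B|^{o(1)}` in
number, so the sum over all labels is small along a grid of boxes for almost all displacements and
all systems. Long means of `f_i` are close to `E(f_i | I(T_i))` outside small sets, whose visit
frequencies are controlled by Birkhoff's theorem. For the equivalence, products with finite rotations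
single out classes of times.
-/

set_option autoImplicit false

open MeasureTheory ProbabilityTheory Filter Topology

namespace Pool.Agent.Results.MP_f720ae_an.DisplacedBoxes

open Pool.Agent.Q83.NT

/-- Almost surely, for all commuting maps: displacements of unbounded amplitude replace `f_i` by its
conditional expectation on the sets invariant under `T_i`, and displacements of bounded amplitude
replace the question by an equivalent one. -/
theorem result {k m : ℕ} (hk : 1 ≤ k) {Ω : Type*} [MeasurableSpace Ω] (P : Measure Ω)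
    [IsProbabilityMeasure P] (θ : Fin m → (Fin k → ℕ) → Ω → ℕ) (L : Fin m → (Fin k → ℕ) → ℕ)
    (hθ : IsNoise P θ L)
    (hslow : ∀ q : ℕ, ∃ C : ℕ, ∀ i, ∀ t : Fin k → ℕ, (∀ r, 1 ≤ t r) → L i t ^ q ≤ C * ∏ r, t r)
    (J : Finset (Fin m)) (hJ : ∀ i ∈ J, Tendsto (L i) atTop atTop) (l : Fin m → ℕ)
    (hl : ∀ i ∉ J, ∀ t, L i t = l i) (c : Fin m → Fin k → ℤ) (hc : ∀ i ∈ J, c i ≠ 0) :
    ∀ᵐ ω ∂P,
      (∀ (X : Type) [MeasurableSpace X] (μ : Measure X) [IsProbabilityMeasure μ]
        (T : Fin m → Equiv.Perm X), (∀ i, Measurable (T i).symm) →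
        (∀ i, MeasurePreserving (T i) μ μ) → (∀ i j, T i * T j = T j * T i) →
        ∀ f : Fin m → X → ℝ, (∀ i, MemLp (f i) ⊤ μ) →
        ∀ᵐ x ∂μ, Tendsto (fun M : Fin k → ℕ =>
          (∏ r, (M r : ℝ))⁻¹ * (∑ t ∈ Fintype.piFinset (fun r => Finset.Icc 1 (M r)),
            ∏ i, f i ((T i ^ (∑ r, c i r * (t r : ℤ) + (θ i t ω : ℤ))) x)) -
          (∏ i ∈ J, (μ[f i | MeasurableSpace.invariants (T i)]) x) *
          ((∏ r, (M r : ℝ))⁻¹ * ∑ t ∈ Fintype.piFinset (fun r => Finset.Icc 1 (M r)),
            ∏ i ∈ Jᶜ, mn (T i) (l i) (f i) ((T i ^ (∑ r, c i r * (t r : ℤ))) x))) atTop (𝓝 0)) ∧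
      ((∃ r : Fin m → ℤ, (∀ i ∈ Jᶜ, r i ≠ 0) ∧ ∀ j, ∑ i ∈ Jᶜ, r i * c i j = 0) →
        (ConvBox Finset.univ (fun i t => ∑ r, c i r * (t r : ℤ) + (θ i t ω : ℤ)) ↔
          ConvBox Jᶜ fun i (t : Fin k → ℕ) => ∑ r, c i r * (t r : ℤ))) :=
  thr_box hk hθ hslow J hJ l hl c hc

end Pool.Agent.Results.MP_f720ae_an.DisplacedBoxes
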