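import Pool.Agent.Q161.MsJ

/-! # The Furstenberg-Bergelson-Leibman question and permutations of finite sets

The question (averages over boxes in several parameters) is equivalent to a statement about permutations of
finite sets which generate a nilpotent group. The equivalence holds for every bound on the class and for
arbitrary integer valued functions in the place of the polynomials. -/

set_option autoImplicit false

open MeasureTheory Filter Topology
open scoped ENNReal

namespace Pool.Agent.Results.MP_f720ae_an.FinitePermutations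

open Pool.Agent.Q161

section

variable {d k n : ℕ}

/-- `S_j(m) x`, where `S_j(m)` is the product of the `T_i ^ e_{ij}(m)` in the order of the problem. -/
def point {X : Type} (T : Fin d → Equiv.Perm X) (e : Fin d → Fin n → (Fin k → ℕ) → ℤ) (j : Fin n)
    (m : Fin k → ℕ) (x : X) : X :=
  (List.ofFn fun i : Fin d => T i ^ e i j m).prod x

/-- The box averages `A_M(f_1, ..., f_n)(x)`. -/
noncomputable def avg {X : Type} (T : Fin d → Equiv.Perm X) (e : Fin d → Fin n → (Fin k → ℕ) → ℤ)
    (f : Fin n → X → ℝ) (x : X) (M : Fin k → ℕ) : ℝ :=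
  (∏ j, (M j : ℝ))⁻¹ * ∑ m ∈ Fintype.piFinset (fun j => Finset.range (M j)), ∏ j : Fin n, f j (point T e j m x)

/-- The group generated by the `T_i` is nilpotent of class at most `s`. -/
def ClassLE {X : Type} (T : Fin d → Equiv.Perm X) (s : ℕ) : Prop :=
  (Subgroup.closure (Set.range T)).lowerCentralSeries s = ⊥

/-- Convergence almost everywhere for all systems of class at most `s`. -/
def Pointwise (s : ℕ) (e : Fin d → Fin n → (Fin k → ℕ) → ℤ) : Prop :=
  ∀ (X : Type) [MeasurableSpace X] (μ : Measure X) [IsProbabilityMeasure μ] (T : Fin d → Equiv.Perm X),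
    (∀ i, Measurable (T i).symm) → (∀ i, MeasurePreserving (T i) μ μ) → ClassLE T s →
    ∀ f : Fin n → X → ℝ, (∀ j, MemLp (f j) ∞ μ) → ∀ᵐ x ∂μ, ∃ L : ℝ, Tendsto (avg T e f x) atTop (𝓝 L)

/-- Uniform metastability: `K` depends only on `s`, the functions `e`, `ε` and `Φ`. -/
def UniformRate (s : ℕ) (e : Fin d → Fin n → (Fin k → ℕ) → ℤ) : Prop :=
  ∀ ε : ℝ, 0 < ε → ∀ Φ : ℕ → ℕ, ∃ K : ℕ,
    ∀ (X : Type) [MeasurableSpace X] (μ : Measure X) [IsProbabilityMeasure μ] (T : Fin d → Equiv.Perm X),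
    (∀ i, Measurable (T i).symm) → (∀ i, MeasurePreserving (T i) μ μ) → ClassLE T s →
    ∀ f : Fin n → X → ℝ, (∀ j, Measurable (f j)) → (∀ j x, |f j x| ≤ 1) →
      ∃ N, 1 ≤ N ∧ N ≤ K ∧
        μ {x | ∃ M : Fin k → ℕ, (∀ l, N ≤ M l ∧ M l ≤ Φ N) ∧ ε < |avg T e f x M - avg T e f x fun _ => N|} ≤
          ENNReal.ofReal ε

/-- The share of the `m` in the box `M` for which `S_j(m) y` is in `A_j` for all `j`. -/
noncomputable def density {Y : Type} (T : Fin d → Equiv.Perm Y) (e : Fin d → Fin n → (Fin k → ℕ) → ℤ)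
    (A : Fin n → Set Y) (y : Y) (M : Fin k → ℕ) : ℝ :=
  (Nat.card {m : Fin k → ℕ // (∀ l, m l < M l) ∧ ∀ j, point T e j m y ∈ A j} : ℝ) / ∏ l, (M l : ℝ)

/-- The finitary statement: permutations `T_1, ..., T_d` of a finite set `Y` that generate a nilpotent group
of class at most `s`, and subsets `A_1, ..., A_n` of `Y`. -/
def Finitary (s : ℕ) (e : Fin d → Fin n → (Fin k → ℕ) → ℤ) : Prop :=
  ∀ ε : ℝ, 0 < ε → ∀ Φ : ℕ → ℕ, ∃ K : ℕ,
    ∀ (Y : Type) [Fintype Y] [Nonempty Y] (T : Fin d → Equiv.Perm Y), ClassLE T s → ∀ A : Fin n → Set Y,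
      ∃ N, 1 ≤ N ∧ N ≤ K ∧
        (Nat.card {y : Y // ∃ M : Fin k → ℕ, (∀ l, N ≤ M l ∧ M l ≤ Φ N) ∧
          ε < |density T e A y M - density T e A y fun _ => N|} : ℝ) ≤ ε * Fintype.card Y

lemma av_eq {X : Type} (T : Fin d → Equiv.Perm X) (e : Fin d → Fin n → (Fin k → ℕ) → ℤ) (f : Fin n → X → ℝ)
    (x : X) (M : Fin k → ℕ) :
    Ms.av (fun M : Fin k → ℕ => (∏ j, (M j : ℝ))⁻¹) (fun M => Fintype.piFinset (fun j => Finset.range (M j)))
      (Ms.maps T e) f x M = avg T e f x M := rfl

lemma density_eq {Y : Type} (T : Fin d → Equiv.Perm Y) (e : Fin d → Fin n → (Fin k → ℕ) → ℤ)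
    (A : Fin n → Set Y) (y : Y) (M : Fin k → ℕ) :
    Ms.av (fun M : Fin k → ℕ => (∏ j, (M j : ℝ))⁻¹) (fun M => Fintype.piFinset (fun j => Finset.range (M j)))
      (Ms.maps T e) (fun j => (A j).indicator 1) y M = density T e A y M := by
  classical
  unfold Ms.av density
  have h1 : Nat.card {m : Fin k → ℕ // (∀ l, m l < M l) ∧ ∀ j, point T e j m y ∈ A j} =
      ((Fintype.piFinset (fun j => Finset.range (M j))).filter (fun m => ∀ j, point T e j m y ∈ A j)).card := by
    rw [Nat.subtype_card]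
    intro m
    rw [Finset.mem_filter, Fintype.mem_piFinset]
    simp only [Finset.mem_range]
  rw [h1, Finset.card_eq_sum_ones, Finset.sum_filter, div_eq_inv_mul]
  push_cast
  congr 1
  refine Finset.sum_congr rfl fun m _ => ?_
  have h2 : ∀ j, Ms.maps T e j m y = point T e j m y := fun j => rfl
  simp only [h2, Set.indicator_apply, Pi.one_apply]
  by_cases h3 : ∀ j, point T e j m y ∈ A j
  · rw [if_pos h3]
    exact Finset.prod_eq_one fun j _ => if_pos (h3 j)
  · rw [if_neg h3]
    push Not at h3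
    obtain ⟨j, hj⟩ := h3
    exact Finset.prod_eq_zero (Finset.mem_univ j) (if_neg hj)

/-- The three statements are equivalent. -/
theorem equiv (s : ℕ) (e : Fin d → Fin n → (Fin k → ℕ) → ℤ) :
    (Pointwise s e ↔ UniformRate s e) ∧ (Pointwise s e ↔ Finitary s e) := by
  have h1 := Ms.main_equiv s atTop (fun M : Fin k → ℕ => (∏ j, (M j : ℝ))⁻¹)
    (fun M => Fintype.piFinset (fun j => Finset.range (M j))) (by
      intro t
      rw [Fintype.card_piFinset, norm_inv, Real.norm_of_nonneg (Finset.prod_nonneg fun j _ => Nat.cast_nonneg _)]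
      simp only [Finset.card_range, Nat.cast_prod]
      exact inv_mul_le_one) e (fun N R => Fintype.piFinset fun _ => Finset.Icc N R) (fun N _ => N) (by
      intro U hU
      obtain ⟨a, ha⟩ := mem_atTop_sets.1 hU
      filter_upwards [eventually_ge_atTop (∑ l, a l)] with N hN
      have haN : ∀ l, a l ≤ N := fun l => (Finset.single_le_sum (fun _ _ => Nat.zero_le _) (Finset.mem_univ l)).trans hN
      refine ⟨ha _ haN, fun R t ht => ?_⟩
      rw [Fintype.mem_piFinset] at ht
      exact ha t fun l => (haN l).trans (Finset.mem_Icc.1 (ht l)).1) (by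
      intro N
      filter_upwards [eventually_ge_atTop (fun _ : Fin k => N)] with t ht
      refine ⟨∑ l, t l, ?_⟩
      rw [Fintype.mem_piFinset]
      intro l
      rw [Finset.mem_Icc]
      exact ⟨ht l, Finset.single_le_sum (fun _ _ => Nat.zero_le _) (Finset.mem_univ l)⟩) (by
      intro N R R' hR t ht
      rw [Fintype.mem_piFinset] at ht ⊢
      intro l
      have h2 := ht l
      rw [Finset.mem_Icc] at h2 ⊢
      exact ⟨h2.1, h2.2.trans hR⟩)
  have h2 : Ms.ConvT s atTop (fun M : Fin k → ℕ => (∏ j, (M j : ℝ))⁻¹)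
      (fun M => Fintype.piFinset (fun j => Finset.range (M j))) e ↔ Pointwise s e := Iff.rfl
  have h3 : Ms.UnifT s (fun M : Fin k → ℕ => (∏ j, (M j : ℝ))⁻¹)
      (fun M => Fintype.piFinset (fun j => Finset.range (M j))) e
      (fun N R => Fintype.piFinset fun _ => Finset.Icc N R) (fun N _ => N) ↔ UniformRate s e := by
    unfold Ms.UnifT UniformRate
    simp only [av_eq, dist_eq_norm, Fintype.mem_piFinset, Finset.mem_Icc, Real.norm_eq_abs]
    exact Iff.rfl
  have h4 : Ms.FinT s (fun M : Fin k → ℕ => (∏ j, (M j : ℝ))⁻¹)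
      (fun M => Fintype.piFinset (fun j => Finset.range (M j))) e
      (fun N R => Fintype.piFinset fun _ => Finset.Icc N R) (fun N _ => N) ↔ Finitary s e := by
    unfold Ms.FinT Finitary
    simp only [density_eq, dist_eq_norm, Fintype.mem_piFinset, Finset.mem_Icc, Real.norm_eq_abs]
    exact Iff.rfl
  rw [h2, h3, h4] at h1
  exact h1

end

/-- The question, as in the frozen statement `S06743`. -/
def Question : Prop :=
  ∀ (d k n : ℕ) (X : Type) [MeasurableSpace X] (μ : MeasureTheory.Measure X)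
    [MeasureTheory.IsProbabilityMeasure μ] (T : Fin d → Equiv.Perm X),
    (∀ i, Measurable (T i) ∧ Measurable (T i).symm ∧
      MeasureTheory.MeasurePreserving (T i) μ μ) →
    Group.IsNilpotent ↥(Subgroup.closure (Set.range T)) →
    ∀ (P : Fin d → Fin n → MvPolynomial (Fin k) ℤ) (f : Fin n → X → ℝ),
    (∀ j, MeasureTheory.MemLp (f j) ⊤ μ) →
    ∀ᵐ x ∂μ, ∃ L : ℝ, Filter.Tendsto
      (fun M : Fin k → ℕ => (∏ j, (M j : ℝ))⁻¹ *
        ∑ m ∈ Fintype.piFinset (fun j => Finset.range (M j)),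
          ∏ j : Fin n, f j ((List.ofFn (fun i : Fin d =>
            T i ^ (MvPolynomial.eval (fun l => ((m l : ℕ) : ℤ)) (P i j)))).prod x))
      Filter.atTop (nhds L)

theorem result :
    (∀ (d k n s : ℕ) (e : Fin d → Fin n → (Fin k → ℕ) → ℤ),
      (Pointwise s e ↔ UniformRate s e) ∧ (Pointwise s e ↔ Finitary s e)) ∧
    (Question ↔ ∀ (d k n s : ℕ) (P : Fin d → Fin n → MvPolynomial (Fin k) ℤ),
      Finitary s (fun i j m => MvPolynomial.eval (fun l => ((m l : ℕ) : ℤ)) (P i j))) := by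
  refine ⟨fun d k n s e => equiv s e, ⟨fun hQ d k n s P => ?_, fun hF => ?_⟩⟩
  · rw [← (equiv s _).2]
    intro X _ μ _ T hT1 hT2 hT3 f hf
    exact hQ d k n X μ T (fun i => ⟨(hT2 i).measurable, hT1 i, hT2 i⟩)
      (Subgroup.isNilpotent_iff_lowerCentralSeries _ |>.2 ⟨s, hT3⟩) P f hf
  · intro d k n X _ μ _ T hT hT3 P f hf
    obtain ⟨s, hs⟩ := (Subgroup.isNilpotent_iff_lowerCentralSeries _).1 hT3
    exact (equiv s _).2.2 (hF d k n s P) X μ T (fun i => (hT i).2.1) (fun i => (hT i).2.2) hs f hf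

end Pool.Agent.Results.MP_f720ae_an.FinitePermutations
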