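import Pool.Agent.Q96.KP.Fin

/-!
# Kolmogorov extensions of arbitrary systems: polynomial exponents, unrestricted boxes

A group `G` acts by measure preserving bijections `Φ g` of a probability space `(X, μ)`, and
`ℓ : G → ℝ` is a homomorphism. `𝒴 ⊆ 𝒜` are sub-`σ`-algebras, `𝒴` is invariant, and

* `(Φ g)⁻¹ 𝒜 ⊆ 𝒜` whenever `ℓ g ≤ 0`,
* the `(Φ g)⁻¹ 𝒜`, `g ∈ G`, generate all measurable sets modulo `μ`,
* the intersection of the `(Φ g)⁻¹ 𝒜`, `g ∈ G`, is contained in `𝒴` modulo `μ`,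

that is, the action is a Kolmogorov (`K`-) extension of its factor `𝒴` (for `𝒴` trivial: a
`K`-action). Nothing is assumed about the factor `𝒴`. `G` need not be commutative or nilpotent.
For example, the factor `𝒴` is arbitrary and `X` is its product with a Bernoulli action of `G`.
-/

set_option autoImplicit false

open Filter Topology MeasureTheory
open scoped ENNReal

namespace Pool.Agent.Results.MP_f720ae_an.KolmogorovPolynomialBoxes

/-- `S(m) = t_1^(P_1(m)) ⋯ t_d^(P_d(m))` for `m ∈ ℕ^k`. -/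
noncomputable def S {G : Type*} [Group G] {d k : ℕ} (t : Fin d → G) (P : Fin d → MvPolynomial (Fin k) ℤ)
    (m : Fin k → ℕ) : G :=
  (List.ofFn fun i => t i ^ MvPolynomial.eval (fun l => ((m l : ℕ) : ℤ)) (P i)).prod

/-- The real polynomial `ℓ(t_1) P_1 + ⋯ + ℓ(t_d) P_d`, whose value at `m` is `ℓ (S(m))`. -/
noncomputable def level {G : Type*} (ℓ : G → ℝ) {d k : ℕ} (t : Fin d → G)
    (P : Fin d → MvPolynomial (Fin k) ℤ) : MvPolynomial (Fin k) ℝ :=
  ∑ i, MvPolynomial.C (ℓ (t i)) * MvPolynomial.map (Int.castRingHom ℝ) (P i)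

/-- For every bounded measurable `H`, the box averages of `m ↦ H (q m x)` converge for almost
every `x`. -/
def SingleAveragesConverge {X : Type*} [MeasurableSpace X] {k : ℕ} (μ : Measure X)
    (q : (Fin k → ℕ) → X → X) : Prop :=
  ∀ H : X → ℝ, Measurable H → (∃ C : ℝ, ∀ x, |H x| ≤ C) →
    ∀ᵐ x ∂μ, ∃ L : ℝ, Tendsto (fun M : Fin k → ℕ => (∏ l, (M l : ℝ))⁻¹ *
      ∑ m ∈ Fintype.piFinset (fun l => Finset.Icc 1 (M l)), H (q m x)) atTop (𝓝 L)

/-- The conditional expectations of `f` on the `σ`-algebras `(Φ r)⁻¹ 𝒜` come arbitrarily close to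
`f`, and also arbitrarily close to `E(f | 𝒴)`, in the essential supremum norm (for example, the
continuous functions on `A^G`, `A` finite, for Bernoulli measures, and all functions of `𝒴`). -/
def UniformlyRegular {X G : Type*} [Group G] {mX : MeasurableSpace X} (μ : Measure X)
    (𝒜 𝒴 : MeasurableSpace X) (Φ : G →* Equiv.Perm X) (f : X → ℂ) : Prop :=
  ∀ ε : ℝ, 0 < ε → ∃ r s : G, ∀ᵐ x ∂μ, ‖f x - (μ[f | 𝒜.comap (Φ r : X → X)]) x‖ ≤ ε ∧
    ‖(μ[f | 𝒜.comap (Φ s : X → X)]) x - (μ[f | 𝒴]) x‖ ≤ ε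

/-- Let `X` be a Kolmogorov extension of its factor `𝒴` with respect to `ℓ : G → ℝ`, let
`t_1, …, t_d ∈ G`, let `P_ij ∈ ℤ[m_1, …, m_k]` be arbitrary polynomials and
`S_j(m) = t_1^(P_1j(m)) ⋯ t_d^(P_dj(m))`, `Λ_j(m) = ℓ (S_j(m))`. Suppose that

* `Λ_j` is not constant, and every variable which occurs in some `P_ij` occurs in `Λ_j`;
* `Λ_i - Λ_j` is not constant for `i ≠ j`;
* the same variables occur in all the `Λ_j`, or `𝒴` is trivial.

Let `f_1, …, f_n ∈ L^∞(X)` and suppose that for each `j`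

* the `t_i` commute and `P_1j, …, P_dj` have degree at most one, or
* `S_j(m) = w u_1^(m_1) ⋯ u_k^(m_k)` for some `w, u_1, …, u_k ∈ G`, or
* the box averages of single bounded functions along `S_j` converge almost everywhere, or
* `f_j` is uniformly regular.

Then for almost every `x` the averages over `m ∈ [M_1] × ⋯ × [M_k]` of
`∏_j f_j (S_j(m) x) - ∏_j E(f_j | 𝒴) (S_j(m) x)` tend to zero as `min M_i → ∞` (unrestricted
boxes). So the averages of `∏_j f_j (S_j(m) x)` converge where those of the conditional expectations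
on the factor do; and for a `K`-action (`𝒴` trivial) they converge to `∏_j ∫ f_j` almost
everywhere. -/
theorem result (d k n : ℕ) {X G : Type*} [Group G] (𝒜 𝒴 : MeasurableSpace X)
    [mX : MeasurableSpace X] (μ : Measure X) [IsProbabilityMeasure μ] (Φ : G →* Equiv.Perm X)
    (hΦ : ∀ g, MeasurePreserving (Φ g) μ μ)
    (ℓ : G → ℝ) (hℓ : ∀ g h, ℓ (g * h) = ℓ g + ℓ h)
    (h𝒜 : 𝒜 ≤ mX) (h𝒴 : 𝒴 ≤ 𝒜) (hinv : ∀ g, Measurable[𝒴, 𝒴] (Φ g : X → X))
    (hmono : ∀ g, ℓ g ≤ 0 → 𝒜.comap (Φ g : X → X) ≤ 𝒜)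
    (hgen : ∀ B, MeasurableSet[mX] B →
      ∃ B', MeasurableSet[⨆ g, 𝒜.comap (Φ g : X → X)] B' ∧ B =ᵐ[μ] B')
    (htail : ∀ B, (∀ g, MeasurableSet[𝒜.comap (Φ g : X → X)] B) →
      ∃ B', MeasurableSet[𝒴] B' ∧ B =ᵐ[μ] B')
    (t : Fin d → G) (P : Fin d → Fin n → MvPolynomial (Fin k) ℤ)
    (h1 : ∀ j, (level ℓ t fun i => P i j).vars.Nonempty)
    (h2 : ∀ i j, (P i j).vars ⊆ (level ℓ t fun i => P i j).vars)
    (h3 : ∀ i j, i ≠ j → (level ℓ t (fun l => P l i) - level ℓ t (fun l => P l j)).vars.Nonempty)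
    (h4 : (∀ i j, (level ℓ t fun l => P l i).vars = (level ℓ t fun l => P l j).vars) ∨
      ∀ B, MeasurableSet[𝒴] B → μ B = 0 ∨ μ B = 1)
    (f : Fin n → X → ℂ) (hf : ∀ j, MemLp (f j) ∞ μ)
    (hslot : ∀ j, ((∀ i i', Commute (t i) (t i')) ∧ ∀ i, (P i j).totalDegree ≤ 1) ∨
      (∃ (w : G) (u : Fin k → G), ∀ m : Fin k → ℕ,
        S t (fun i => P i j) m = w * (List.ofFn fun l => u l ^ m l).prod) ∨
      SingleAveragesConverge μ (fun m => (Φ (S t (fun i => P i j) m) : X → X)) ∨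
      UniformlyRegular μ 𝒜 𝒴 Φ (f j)) :
    ∀ᵐ x ∂μ, Tendsto (fun M : Fin k → ℕ => (∏ l, (M l : ℂ))⁻¹ *
      ∑ m ∈ Fintype.piFinset (fun l => Finset.Icc 1 (M l)),
        (∏ j, f j (Φ (S t (fun i => P i j) m) x) -
          ∏ j, (μ[f j | 𝒴]) (Φ (S t (fun i => P i j) m) x))) atTop (𝓝 0) :=
  Pool.Agent.Q96.KP.main_boxes (mA := 𝒜) (mY := 𝒴) (ℓ := ℓ)
    ⟨hΦ, ⟨hℓ, h𝒜, hmono⟩, ⟨h𝒴, hinv⟩, hgen, htail⟩ t P h1 h2 h3 h4 hf hslot

end Pool.Agent.Results.MP_f720ae_an.KolmogorovPolynomialBoxes
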