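import Pool.Agent.Q197.PS.MC

/-! # Pointwise convergence of multiple polynomial averages along random unions of residue classes of times -/

set_option autoImplicit false

open Finset Filter Topology MeasureTheory

namespace Pool.Agent.Results.MP_f720ae_an.UnionsOfClasses

open Q197.PS

section

variable {X : Type} {d k n : ℕ}

/-- The term of the averages at the time `m` and the point `x`. -/
noncomputable def term (T : Fin d → Equiv.Perm X) (P : Fin d → Fin n → MvPolynomial (Fin k) ℤ) (f : Fin n → X → ℝ)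
    (x : X) (m : Fin k → ℕ) : ℝ :=
  ∏ j : Fin n, f j ((List.ofFn (fun i : Fin d =>
    T i ^ (MvPolynomial.eval (fun l => ((m l : ℕ) : ℤ)) (P i j)))).prod x)

open Classical in
/-- The averages over the boxes with sides `M`, restricted to the times `m` with residues modulo `Q` in `A`. -/
noncomputable def avg (T : Fin d → Equiv.Perm X) (P : Fin d → Fin n → MvPolynomial (Fin k) ℤ) (f : Fin n → X → ℝ)
    (Q : ℕ) (A : Finset (Fin k → ℕ)) (x : X) (M : Fin k → ℕ) : ℝ :=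
  (∏ j, (M j : ℝ))⁻¹ * ∑ m ∈ (Fintype.piFinset (fun j => range (M j))).filter (fun m => (fun j => m j % Q) ∈ A),
    term T P f x m

/-- Convergence at the point `x` along `A`. -/
def ConvAt (T : Fin d → Equiv.Perm X) (P : Fin d → Fin n → MvPolynomial (Fin k) ℤ) (f : Fin n → X → ℝ)
    (Q : ℕ) (A : Finset (Fin k → ℕ)) (x : X) : Prop :=
  ∃ L : ℝ, Tendsto (avg T P f Q A x) atTop (𝓝 L)

/-- Convergence almost everywhere along `A`. -/
def ConvAE [MeasurableSpace X] (μ : Measure X) (T : Fin d → Equiv.Perm X)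
    (P : Fin d → Fin n → MvPolynomial (Fin k) ℤ) (f : Fin n → X → ℝ) (Q : ℕ) (A : Finset (Fin k → ℕ)) : Prop :=
  ∀ᵐ x ∂μ, ConvAt T P f Q A x

open Classical in
/-- The number of the sets `A` of residue classes modulo `Q` with convergence almost everywhere along `A`. -/
noncomputable def count [MeasurableSpace X] (μ : Measure X) (T : Fin d → Equiv.Perm X)
    (P : Fin d → Fin n → MvPolynomial (Fin k) ℤ) (f : Fin n → X → ℝ) (Q : ℕ) : ℕ :=
  ((Fintype.piFinset (fun _ : Fin k => range Q)).powerset.filter (fun A => ConvAE μ T P f Q A)).card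

open Classical in
/-- The number of the sets `A` of residue classes modulo `Q` with convergence at `x` along `A`. -/
noncomputable def countAt (T : Fin d → Equiv.Perm X)
    (P : Fin d → Fin n → MvPolynomial (Fin k) ℤ) (f : Fin n → X → ℝ) (Q : ℕ) (x : X) : ℕ :=
  ((Fintype.piFinset (fun _ : Fin k => range Q)).powerset.filter (fun A => ConvAt T P f Q A x)).card

/-- Measure preserving systems of invertible maps. -/
def Sys [MeasurableSpace X] (μ : Measure X) (T : Fin d → Equiv.Perm X) : Prop :=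
  ∀ i, Measurable (T i) ∧ Measurable (T i).symm ∧ MeasurePreserving (T i) μ μ

lemma avg_eq (T : Fin d → Equiv.Perm X) (P : Fin d → Fin n → MvPolynomial (Fin k) ℤ) (f : Fin n → X → ℝ)
    (Q : ℕ) (A : Finset (Fin k → ℕ)) (x : X) : avg T P f Q A x = avM (term T P f x) Q A := by
  funext M
  rfl

lemma conv_iff' (T : Fin d → Equiv.Perm X) (P : Fin d → Fin n → MvPolynomial (Fin k) ℤ) (f : Fin n → X → ℝ)
    (Q : ℕ) (A : Finset (Fin k → ℕ)) (x : X) : ConvAt T P f Q A x ↔ ConvM (term T P f x) Q A := by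
  unfold ConvAt ConvM
  rw [avg_eq]

lemma countAt_eq (T : Fin d → Equiv.Perm X) (P : Fin d → Fin n → MvPolynomial (Fin k) ℤ) (f : Fin n → X → ℝ)
    (Q : ℕ) (x : X) : countAt T P f Q x = nCM (term T P f x) Q := by
  classical
  unfold countAt nCM
  simp only [conv_iff']
  rfl

/-- the maps that are used -/
def Good [MeasurableSpace X] (μ : Measure X) (g : Equiv.Perm X) : Prop :=
  Measurable g ∧ Measurable g.symm ∧ MeasurePreserving g μ μ

lemma good_one [MeasurableSpace X] (μ : Measure X) : Good μ (1 : Equiv.Perm X) :=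
  ⟨measurable_id, measurable_id, MeasurePreserving.id μ⟩

lemma good_mul [MeasurableSpace X] {μ : Measure X} {g h : Equiv.Perm X} (hg : Good μ g) (hh : Good μ h) :
    Good μ (g * h) :=
  ⟨hg.1.comp hh.1, hh.2.1.comp hg.2.1, hg.2.2.comp hh.2.2⟩

lemma good_inv [MeasurableSpace X] {μ : Measure X} {g : Equiv.Perm X} (hg : Good μ g) : Good μ g⁻¹ := by
  refine ⟨hg.2.1, hg.1, ?_⟩
  have h1 : MeasurePreserving (⟨g, hg.1, hg.2.1⟩ : X ≃ᵐ X) μ μ := hg.2.2
  exact h1.symm

lemma good_zpow [MeasurableSpace X] {μ : Measure X} {g : Equiv.Perm X} (hg : Good μ g) (z : ℤ) : Good μ (g ^ z) := by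
  have h1 : ∀ m : ℕ, Good μ (g ^ m) := by
    intro m
    induction m with
    | zero => rw [pow_zero]; exact good_one μ
    | succ m ih => rw [pow_succ]; exact good_mul ih hg
  rcases z with m | m
  · exact h1 m
  · rw [zpow_negSucc]
    exact good_inv (h1 _)

lemma good_list [MeasurableSpace X] {μ : Measure X} (l : List (Equiv.Perm X)) (hl : ∀ g ∈ l, Good μ g) :
    Good μ l.prod := by
  induction l with
  | nil => rw [List.prod_nil]; exact good_one μ
  | cons g l ih =>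
    rw [List.prod_cons]
    exact good_mul (hl g (List.mem_cons_self)) (ih fun h hh => hl h (List.mem_cons_of_mem _ hh))

lemma bdd_ae [MeasurableSpace X] {μ : Measure X} {T : Fin d → Equiv.Perm X} (hT : Sys μ T)
    (P : Fin d → Fin n → MvPolynomial (Fin k) ℤ) {f : Fin n → X → ℝ} (hf : ∀ j, MemLp (f j) ⊤ μ) :
    ∃ K : ℝ, ∀ᵐ x ∂μ, ∀ m, |term T P f x m| ≤ K := by
  have h1 : ∀ j, ∃ C : ℝ, ∀ᵐ y ∂μ, |f j y| ≤ C := by
    intro j
    refine ⟨(eLpNormEssSup (f j) μ).toReal, ?_⟩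
    have h2 : eLpNormEssSup (f j) μ ≠ ⊤ := by
      have := (hf j).2
      rw [eLpNorm_exponent_top] at this
      exact this.ne
    filter_upwards [ae_le_eLpNormEssSup (f := f j) (μ := μ)] with y hy
    have h3 := ENNReal.toReal_mono h2 hy
    rw [← Real.norm_eq_abs]
    rwa [toReal_enorm] at h3
  choose C hC using h1
  refine ⟨∏ j, |C j|, ?_⟩
  rw [ae_all_iff]
  intro m
  have h2 : ∀ j, ∀ᵐ x ∂μ, |f j ((List.ofFn (fun i : Fin d =>
      T i ^ (MvPolynomial.eval (fun l => ((m l : ℕ) : ℤ)) (P i j)))).prod x)| ≤ |C j| := by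
    intro j
    have h3 : Good μ (List.ofFn (fun i : Fin d =>
        T i ^ (MvPolynomial.eval (fun l => ((m l : ℕ) : ℤ)) (P i j)))).prod := by
      refine good_list _ fun g hg => ?_
      rw [List.mem_ofFn] at hg
      obtain ⟨i, rfl⟩ := hg
      exact good_zpow (hT i) _
    filter_upwards [h3.2.2.quasiMeasurePreserving.ae (hC j)] with x hx
    exact hx.trans (le_abs_self _)
  rw [← ae_all_iff] at h2
  filter_upwards [h2] with x hx
  unfold term
  rw [abs_prod]
  exact prod_le_prod (fun _ _ => abs_nonneg _) fun j _ => hx j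

/-- **Zero-one law** -/
theorem zero_one' [MeasurableSpace X] {μ : Measure X} {T : Fin d → Equiv.Perm X} (hT : Sys μ T)
    (P : Fin d → Fin n → MvPolynomial (Fin k) ℤ) {f : Fin n → X → ℝ} (hf : ∀ j, MemLp (f j) ⊤ μ) (q : ℕ)
    (B : Finset (Fin k → ℕ)) (hcon : ¬ ConvAE μ T P f q B) : ∃ C : ℝ, 0 < C ∧ ∀ Q : ℕ, 0 < Q → q ∣ Q →
      (count μ T P f Q : ℝ) ≤ C * 2 ^ (Q ^ k) / √((Q : ℝ) ^ k) := by
  classical
  obtain ⟨K, hK⟩ := bdd_ae hT P hf
  have h1 : ∀ᵐ x ∂μ, ∀ Q : ℕ, ∀ A : Finset (Fin k → ℕ), ConvAE μ T P f Q A → ConvAt T P f Q A x := by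
    rw [ae_all_iff]
    intro Q
    rw [ae_all_iff]
    intro A
    by_cases h : ConvAE μ T P f Q A
    · filter_upwards [h] with x hx _ using hx
    · exact Eventually.of_forall fun x h' => absurd h' h
  have h2 : ∃ᶠ x in ae μ, ¬ ConvAt T P f q B x := by
    intro h3
    apply hcon
    filter_upwards [h3] with x hx
    simpa using hx
  obtain ⟨x, hx1, hx2, hx3⟩ := (h2.and_eventually (hK.and h1)).exists
  rw [conv_iff'] at hx1
  obtain ⟨C, hC, h4⟩ := few_convM' hx2 q B hx1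
  refine ⟨C, hC, fun Q hQ hd => le_trans ?_ (h4 Q hQ hd)⟩
  rw [← countAt_eq]
  have h5 : count μ T P f Q ≤ countAt T P f Q x := by
    unfold count countAt
    refine card_le_card fun A hA => ?_
    rw [mem_filter] at hA ⊢
    exact ⟨hA.1, hx3 Q A hA.2⟩
  exact_mod_cast h5

lemma ae_of_share [MeasurableSpace X] {μ : Measure X} {T : Fin d → Equiv.Perm X} (hT : Sys μ T)
    (P : Fin d → Fin n → MvPolynomial (Fin k) ℤ) {f : Fin n → X → ℝ} (hf : ∀ j, MemLp (f j) ⊤ μ) (q : ℕ)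
    (B : Finset (Fin k → ℕ))
    (h : ∀ K : ℝ, ∃ Q : ℕ, 0 < Q ∧ q ∣ Q ∧ K * 2 ^ (Q ^ k) / √((Q : ℝ) ^ k) ≤ count μ T P f Q) :
    ConvAE μ T P f q B := by
  by_contra hcon
  obtain ⟨C, hC, h1⟩ := zero_one' hT P hf q B hcon
  obtain ⟨Q, hQ, hd, h2⟩ := h (C + 1)
  have h3 := h2.trans (h1 Q hQ hd)
  have hQr : (0 : ℝ) < Q := by exact_mod_cast hQ
  rw [div_le_div_iff_of_pos_right (Real.sqrt_pos.2 (by positivity))] at h3
  have h4 : (0 : ℝ) < 2 ^ (Q ^ k) := by positivity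
  nlinarith

lemma share_of_all [MeasurableSpace X] {μ : Measure X} {T : Fin d → Equiv.Perm X} (hk : 1 ≤ k)
    (P : Fin d → Fin n → MvPolynomial (Fin k) ℤ) {f : Fin n → X → ℝ}
    (h : ∀ Q : ℕ, 0 < Q → ∀ A ⊆ Fintype.piFinset (fun _ : Fin k => range Q), ConvAE μ T P f Q A)
    {q : ℕ} (hq : 0 < q) (K : ℝ) :
    ∃ Q : ℕ, 0 < Q ∧ q ∣ Q ∧ K * 2 ^ (Q ^ k) / √((Q : ℝ) ^ k) ≤ count μ T P f Q := by
  classical
  obtain ⟨m, hm⟩ := exists_nat_gt (K ^ 2)
  have hm1 : (0 : ℝ) < m := lt_of_le_of_lt (sq_nonneg K) hm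
  have hm2 : 0 < m := by exact_mod_cast hm1
  have hP : 0 < q * m := Nat.mul_pos hq hm2
  refine ⟨q * m, hP, dvd_mul_right _ _, ?_⟩
  have h2 : count μ T P f (q * m) = 2 ^ ((q * m) ^ k) := by
    unfold count
    rw [filter_true_of_mem (fun A hA => h _ hP A (mem_powerset.1 hA)), card_powerset]
    congr 1
    exact card_clsM k (q * m)
  rw [h2]
  push_cast
  have hq1 : (1 : ℝ) ≤ q := by exact_mod_cast hq
  have hm3 : (1 : ℝ) ≤ m := by exact_mod_cast hm2
  have hpos : (0 : ℝ) < (q : ℝ) * m := by positivity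
  have h5 : (q : ℝ) * m ≤ ((q : ℝ) * m) ^ k := by
    have h6 : (1 : ℝ) ≤ (q : ℝ) * m := by nlinarith
    exact le_self_pow₀ h6 (by omega)
  rw [div_le_iff₀ (Real.sqrt_pos.2 (by positivity)), mul_comm]
  apply mul_le_mul_of_nonneg_left _ (by positivity)
  apply Real.le_sqrt_of_sq_le
  nlinarith

end

/-- The question, as in the frozen statement `S06743`. -/
def Question : Prop :=
  ∀ (d k n : ℕ) (X : Type) [MeasurableSpace X] (μ : Measure X) [IsProbabilityMeasure μ] (T : Fin d → Equiv.Perm X),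
    (∀ i, Measurable (T i) ∧ Measurable (T i).symm ∧ MeasurePreserving (T i) μ μ) →
    Group.IsNilpotent ↥(Subgroup.closure (Set.range T)) →
    ∀ (P : Fin d → Fin n → MvPolynomial (Fin k) ℤ) (f : Fin n → X → ℝ),
    (∀ j, MemLp (f j) ⊤ μ) →
    ∀ᵐ x ∂μ, ∃ L : ℝ, Tendsto
      (fun M : Fin k → ℕ => (∏ j, (M j : ℝ))⁻¹ *
        ∑ m ∈ Fintype.piFinset (fun j => Finset.range (M j)),
          ∏ j : Fin n, f j ((List.ofFn (fun i : Fin d =>
            T i ^ (MvPolynomial.eval (fun l => ((m l : ℕ) : ℤ)) (P i j)))).prod x))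
      atTop (𝓝 L)

section

variable {X : Type} {d k n : ℕ}

/-- the polynomials along a residue class -/
noncomputable def dil (P : Fin d → Fin n → MvPolynomial (Fin k) ℤ) (Q : ℕ) (r : Fin k → ℕ) :
    Fin d → Fin n → MvPolynomial (Fin k) ℤ :=
  fun i j => MvPolynomial.bind₁ (fun l => MvPolynomial.C (Q : ℤ) * MvPolynomial.X l + MvPolynomial.C ((r l : ℕ) : ℤ)) (P i j)

lemma term_dil (T : Fin d → Equiv.Perm X) (P : Fin d → Fin n → MvPolynomial (Fin k) ℤ) (f : Fin n → X → ℝ)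
    (x : X) (Q : ℕ) (r m : Fin k → ℕ) : term T (dil P Q r) f x m = term T P f x (fun j => Q * m j + r j) := by
  unfold term dil
  have h : ∀ i j, MvPolynomial.eval (fun l => ((m l : ℕ) : ℤ)) (MvPolynomial.bind₁ (fun l =>
      MvPolynomial.C (Q : ℤ) * MvPolynomial.X l + MvPolynomial.C ((r l : ℕ) : ℤ)) (P i j)) =
      MvPolynomial.eval (fun l => ((Q * m l + r l : ℕ) : ℤ)) (P i j) := by
    intro i j
    rw [← MvPolynomial.coe_aeval_eq_eval, ← MvPolynomial.coe_aeval_eq_eval]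
    simp only [RingHom.coe_coe]
    rw [MvPolynomial.aeval_bind₁]
    simp
  simp only [h]

lemma all_of_question (h : Question) [MeasurableSpace X] {μ : Measure X} [IsProbabilityMeasure μ]
    {T : Fin d → Equiv.Perm X} (hT : Sys μ T) (hn : Group.IsNilpotent ↥(Subgroup.closure (Set.range T)))
    (P : Fin d → Fin n → MvPolynomial (Fin k) ℤ) {f : Fin n → X → ℝ} (hf : ∀ j, MemLp (f j) ⊤ μ)
    {Q : ℕ} (hQ : 0 < Q) {A : Finset (Fin k → ℕ)} (hA : A ⊆ Fintype.piFinset (fun _ : Fin k => range Q)) :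
    ConvAE μ T P f Q A := by
  have h1 : ∀ r : Fin k → ℕ, ∀ᵐ x ∂μ, ∃ L : ℝ, Tendsto (fun M : Fin k → ℕ => (∏ j, (M j : ℝ))⁻¹ *
      ∑ m ∈ bx M, term T P f x (fun j => Q * m j + r j)) atTop (𝓝 L) := by
    intro r
    have h2 := h d k n X μ T hT hn (dil P Q r) f hf
    filter_upwards [h2] with x hx
    obtain ⟨L, hL⟩ := hx
    refine ⟨L, hL.congr fun M => ?_⟩
    congr 1
    refine sum_congr rfl fun m _ => ?_
    rw [← term_dil]
    rfl
  rw [← ae_all_iff] at h1
  unfold ConvAE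
  filter_upwards [h1] with x hx
  rw [conv_iff']
  exact conv_of_dil hQ hA fun r _ => hx r

lemma conv_full (T : Fin d → Equiv.Perm X) (P : Fin d → Fin n → MvPolynomial (Fin k) ℤ) (f : Fin n → X → ℝ)
    (x : X) (M : Fin k → ℕ) : avg T P f 1 {fun _ => 0} x M = (∏ j, (M j : ℝ))⁻¹ *
        ∑ m ∈ Fintype.piFinset (fun j => Finset.range (M j)), term T P f x m := by
  classical
  unfold avg
  congr 1
  refine sum_congr ?_ fun _ _ => rfl
  rw [filter_true_of_mem]
  intro m _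
  rw [mem_singleton]
  funext j
  exact Nat.mod_one _

lemma conv_zero (T : Fin d → Equiv.Perm X) (P : Fin d → Fin n → MvPolynomial (Fin 0) ℤ) (f : Fin n → X → ℝ)
    (Q : ℕ) (A : Finset (Fin 0 → ℕ)) (x : X) : ConvAt T P f Q A x := by
  refine ⟨avg T P f Q A x default, ?_⟩
  refine tendsto_const_nhds.congr fun M => ?_
  rw [Subsingleton.elim M default]

end

theorem result :
    -- zero-one law, almost everywhere and at a point
    (∀ (d k n : ℕ) (X : Type) [MeasurableSpace X] (μ : Measure X) (T : Fin d → Equiv.Perm X), Sys μ T →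
      ∀ (P : Fin d → Fin n → MvPolynomial (Fin k) ℤ) (f : Fin n → X → ℝ), (∀ j, MemLp (f j) ⊤ μ) →
      ∀ (q : ℕ) (B : Finset (Fin k → ℕ)), ¬ ConvAE μ T P f q B →
        ∃ C : ℝ, 0 < C ∧ ∀ Q : ℕ, 0 < Q → q ∣ Q → (count μ T P f Q : ℝ) ≤ C * 2 ^ (Q ^ k) / √((Q : ℝ) ^ k)) ∧
    (∀ (d k n : ℕ) (X : Type) (T : Fin d → Equiv.Perm X) (P : Fin d → Fin n → MvPolynomial (Fin k) ℤ)
      (f : Fin n → X → ℝ) (K : ℝ), (∀ j y, |f j y| ≤ K) →
      ∀ (q : ℕ) (B : Finset (Fin k → ℕ)) (x : X), ¬ ConvAt T P f q B x →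
        ∃ C : ℝ, 0 < C ∧ ∀ Q : ℕ, 0 < Q → q ∣ Q → (countAt T P f Q x : ℝ) ≤ C * 2 ^ (Q ^ k) / √((Q : ℝ) ^ k)) ∧
    -- one system
    (∀ (d k n : ℕ) (X : Type) [MeasurableSpace X] (μ : Measure X) (T : Fin d → Equiv.Perm X), Sys μ T → 1 ≤ k →
      ∀ (P : Fin d → Fin n → MvPolynomial (Fin k) ℤ) (f : Fin n → X → ℝ), (∀ j, MemLp (f j) ⊤ μ) →
      ((∀ Q : ℕ, 0 < Q → ∀ A ⊆ Fintype.piFinset (fun _ : Fin k => range Q), ConvAE μ T P f Q A) ↔
        ∀ q : ℕ, 0 < q → ∀ K : ℝ, ∃ Q : ℕ, 0 < Q ∧ q ∣ Q ∧ K * 2 ^ (Q ^ k) / √((Q : ℝ) ^ k) ≤ count μ T P f Q)) ∧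
    -- the question
    (Question ↔ ∀ (d k n : ℕ) (X : Type) [MeasurableSpace X] (μ : Measure X) [IsProbabilityMeasure μ]
      (T : Fin d → Equiv.Perm X), Sys μ T → Group.IsNilpotent ↥(Subgroup.closure (Set.range T)) → 1 ≤ k →
      ∀ (P : Fin d → Fin n → MvPolynomial (Fin k) ℤ) (f : Fin n → X → ℝ), (∀ j, MemLp (f j) ⊤ μ) →
        ∀ K : ℝ, ∃ Q : ℕ, 0 < Q ∧ K * 2 ^ (Q ^ k) / √((Q : ℝ) ^ k) ≤ count μ T P f Q) := by
  refine ⟨?_, ?_, ?_, ?_⟩
  · intro d k n X _ μ T hT P f hf q B hcon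
    exact zero_one' hT P hf q B hcon
  · intro d k n X T P f K hf q B x hcon
    rw [conv_iff'] at hcon
    obtain ⟨C, hC, h⟩ := few_convM' (u := term T P f x) (K := K ^ n) (fun m => by
      unfold term
      rw [abs_prod]
      refine (prod_le_prod (fun _ _ => abs_nonneg _) fun j _ => hf j _).trans ?_
      rw [prod_const, card_univ, Fintype.card_fin]) q B hcon
    refine ⟨C, hC, fun Q hQ hd => ?_⟩
    rw [countAt_eq]
    exact h Q hQ hd
  · intro d k n X _ μ T hT hk P f hf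
    constructor
    · intro h q hq K
      exact share_of_all hk P h hq K
    · intro h Q hQ A _
      exact ae_of_share hT P hf Q A (h Q hQ)
  · constructor
    · intro h d k n X _ μ _ T hT hn hk P f hf K
      obtain ⟨Q, hQ, -, h1⟩ := share_of_all (μ := μ) (T := T) hk P (f := f)
        (fun Q hQ A hA => all_of_question h hT hn P hf hQ hA) one_pos K
      exact ⟨Q, hQ, h1⟩
    · intro h d k n X _ μ _ T hT hn P f hf
      rcases Nat.eq_zero_or_pos k with hk | hk
      · subst hk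
        refine Eventually.of_forall fun x => ?_
        obtain ⟨L, hL⟩ := conv_zero T P f 1 {fun _ => 0} x
        refine ⟨L, hL.congr fun M => ?_⟩
        rw [conv_full]
        rfl
      · have h1 := ae_of_share hT P hf 1 {fun _ => 0} (fun K => by
          obtain ⟨Q, hQ, h2⟩ := h d k n X μ T hT hn hk P f hf K
          exact ⟨Q, hQ, one_dvd _, h2⟩)
        filter_upwards [h1] with x hx
        obtain ⟨L, hL⟩ := hx
        refine ⟨L, hL.congr fun M => ?_⟩
        rw [conv_full]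
        rfl

end Pool.Agent.Results.MP_f720ae_an.UnionsOfClasses
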